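import Pool.Agent.TH82.FG.State
import Pool.Agent.Helper97.Hyp.Axis
import Pool.Agent.TH68.Tool

set_option autoImplicit false
set_option linter.unusedSectionVars false

/-! Two pigeonhole lemmas (job FG-OV). -/

namespace Pool.Agent.TH82.FG

open Pool.Agent.TH68 Pool.Agent.Helper97.Hyp

section

variable {Γ : Type*} [Group Γ] {W : WNorm Γ} {δ : ℝ}

/-- distance of two points -/
lemma ov_dist (g h : Γ) : dist (pt W g) (pt W h) = (W.ℓ (g⁻¹ * h) : ℝ) := rfl

/-- points on the geodesic inside a coset of a geodesic subgroup -/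
lemma Geo.between {C : Subgroup Γ} (hC : Geo W C) (y : Γ) {c c' : Γ} (hc : c ∈ C) (hc' : c' ∈ C)
    (k : ℕ) (hk : (k : ℝ) ≤ dist (pt W (y * c)) (pt W (y * c'))) :
    ∃ κ ∈ C, dist (pt W (y * c)) (pt W (y * κ)) = k ∧
      dist (pt W (y * κ)) (pt W (y * c')) = dist (pt W (y * c)) (pt W (y * c')) - k := by
  have e1 : ∀ u v : Γ, (y * u)⁻¹ * (y * v) = u⁻¹ * v := by intro u v; group
  rw [ov_dist, e1] at hk
  have hk' : k ≤ W.ℓ (c⁻¹ * c') := by exact_mod_cast hk
  obtain ⟨a, ha, b, hb, hab, h1, h2⟩ := hC _ (mul_mem (inv_mem hc) hc') k hk'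
  refine ⟨c * a, mul_mem hc ha, ?_, ?_⟩
  · rw [ov_dist, e1, inv_mul_cancel_left, h1]
  · rw [ov_dist, ov_dist, e1, e1]
    have e2 : (c * a)⁻¹ * c' = b := by
      have : c' = c * (a * b) := by rw [hab]; group
      rw [this]; group
    rw [e2, ← h2]
    push_cast
    ring

/-- points with small excess are close to the coset -/
lemma Geo.near (hyp : GHyp (Pt W) δ) {C : Subgroup Γ} (hC : Geo W C) (y : Γ) {c c' : Γ}
    (hc : c ∈ C) (hc' : c' ∈ C) {z : Pt W} {e : ℝ}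
    (hz : exc (pt W (y * c)) (pt W (y * c')) z ≤ e) :
    ∃ κ ∈ C, dist z (pt W (y * κ)) ≤ e + 2 * δ := by
  have hδ := hyp.nonneg z
  have he := (exc_nonneg _ _ _).trans hz
  rcases le_total (dist (pt W (y * c)) z) (dist (pt W (y * c)) (pt W (y * c'))) with h1 | h1
  · rw [dist_eq_nd (pt W (y * c)) z] at h1
    obtain ⟨κ, hκ, h2, h3⟩ := hC.between y hc hc' _ h1
    refine ⟨κ, hκ, ?_⟩
    have h4 : exc (pt W (y * c)) (pt W (y * c')) (pt W (y * κ)) ≤ e := by
      unfold exc; linarith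
    have := order_close hyp hz h4
    rw [h2, ← dist_eq_nd, sub_self, abs_zero] at this
    linarith
  · refine ⟨c', hc', ?_⟩
    unfold exc at hz
    linarith

/-- exact strips between geodesic subgroups are short -/
theorem overlap (hyp : GHyp (Pt W) δ) {A B : Subgroup Γ} (hA : Geo W A) (hB : Geo W B)
    (ss : SSm (⊥ : Subgroup Γ) A B) (J : ℝ) : ∃ D : ℝ, ∀ (y : Γ), ∀ a ∈ A, ∀ a' ∈ A,
      ∀ b ∈ B, ∀ b' ∈ B, dist (pt W a) (pt W (y * b)) ≤ J → dist (pt W a') (pt W (y * b')) ≤ J →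
        dist (pt W a) (pt W a') ≤ D := by
  classical
  set r : ℕ := ⌊8 * δ⌋₊ with hr
  set F : Finset Γ := (W.fin r).toFinset with hF
  refine ⟨2 * (J + 6 * δ) + F.card + 3, ?_⟩
  intro y a ha a' ha' b hb b' hb' h1 h2
  have hδ := hyp.nonneg (pt W a)
  have hJ : 0 ≤ J := dist_nonneg.trans h1
  by_contra hcon
  push Not at hcon
  set T0 : ℕ := ⌊J + 6 * δ⌋₊ + 1 with hT0
  have hT1 : J + 6 * δ < T0 := by
    rw [hT0]; push_cast; exact Nat.lt_floor_add_one _
  have hT2 : (T0 : ℝ) ≤ J + 6 * δ + 1 := by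
    rw [hT0]; push_cast
    have := Nat.floor_le (show 0 ≤ J + 6 * δ by linarith)
    linarith
  -- the points
  have key : ∀ t : ℕ, t ∈ Finset.Icc T0 (T0 + F.card) → ∃ κ ∈ A, ∃ β ∈ B,
      dist (pt W a) (pt W κ) = t ∧ κ⁻¹ * (y * β) ∈ F := by
    intro t ht
    rw [Finset.mem_Icc] at ht
    have ht1 : (T0 : ℝ) ≤ t := by exact_mod_cast ht.1
    have ht2 : (t : ℝ) ≤ T0 + F.card := by exact_mod_cast ht.2
    obtain ⟨κ, hκ, h3, h4⟩ := hA.between 1 ha ha' t (by rw [one_mul, one_mul]; linarith)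
    rw [one_mul, one_mul] at h3
    rw [one_mul, one_mul, one_mul] at h4
    have h5 : exc (pt W a) (pt W a') (pt W κ) = 0 := by unfold exc; linarith
    obtain ⟨i, hi, h6⟩ := exc_path hyp
      (fun i : ℕ => if i = 0 then pt W a else if i = 1 then pt W (y * b) else
        if i = 2 then pt W (y * b') else pt W a') (pt W κ) 3 (by norm_num)
    have h7 : exc (pt W (y * b)) (pt W (y * b')) (pt W κ) ≤ 6 * δ := by
      have h8 : i = 0 ∨ i = 1 ∨ i = 2 := by omega
      rcases h8 with rfl | rfl | rfl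
      · exfalso
        norm_num at h6
        rw [h5] at h6
        have h9 := dist_nonneg (x := pt W κ) (y := pt W (y * b))
        unfold exc at h6
        linarith
      · norm_num at h6
        rw [h5] at h6
        linarith
      · exfalso
        norm_num at h6
        rw [h5] at h6
        have h9 := dist_nonneg (x := pt W (y * b')) (y := pt W κ)
        unfold exc at h6
        rw [dist_comm (pt W (y * b')) (pt W a')] at h6
        linarith
    obtain ⟨β, hβ, h8⟩ := hB.near hyp y hb hb' h7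
    refine ⟨κ, hκ, β, hβ, h3, ?_⟩
    rw [hF, Set.Finite.mem_toFinset]
    change W.ℓ (κ⁻¹ * (y * β)) ≤ r
    rw [hr]
    apply Nat.le_floor
    rw [ov_dist] at h8
    linarith
  choose! κ hκ β hβ hd hm using key
  obtain ⟨t, ht, s, hs, hts, he⟩ := Finset.exists_ne_map_eq_of_card_lt_of_maps_to
    (s := Finset.Icc T0 (T0 + F.card)) (t := F) (by rw [Nat.card_Icc]; omega)
    (f := fun t => (κ t)⁻¹ * (y * β t)) (fun t ht => hm t ht)
  apply hts
  have e1 : ((κ s)⁻¹ * κ t) ∈ (⊥ : Subgroup Γ) := by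
    apply ss _ (mul_mem (inv_mem (hκ s hs)) (hκ t ht)) _
      (mul_mem (inv_mem (hβ s hs)) (hβ t ht)) ((κ s)⁻¹ * (y * β s))
    rw [Subgroup.mem_bot]
    have he' : (κ t)⁻¹ * (y * β t) = (κ s)⁻¹ * (y * β s) := he
    calc ((κ s)⁻¹ * κ t)⁻¹ * ((κ s)⁻¹ * (y * β s) * ((β s)⁻¹ * β t) *
          ((κ s)⁻¹ * (y * β s))⁻¹)
        = ((κ t)⁻¹ * (y * β t)) * ((κ s)⁻¹ * (y * β s))⁻¹ := by group
      _ = 1 := by rw [he', mul_inv_cancel]
  rw [Subgroup.mem_bot, inv_mul_eq_one] at e1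
  have h3 := hd t ht
  have h4 := hd s hs
  rw [← e1, h4] at h3
  exact_mod_cast h3.symm

/-- a coset crossing the line of a loxodromic element contains a conjugate of a power -/
theorem coset_cross {o : Pt W} {f : Γ} (h : Lox δ o f) {E C : Subgroup Γ}
    (hE : ∀ e ∈ E, Commute e f) (hC : Geo W C) :
    ∃ D : ℝ, ∀ (γ y : Γ), ∀ c ∈ C, ∀ c' ∈ C,
      D ≤ pd {x | ∃ e ∈ E, x = (γ * e) • o} (pt W (y * c)) (pt W (y * c')) →
        ∃ t : ℤ, t ≠ 0 ∧ (y⁻¹ * γ) * f ^ t * (y⁻¹ * γ)⁻¹ ∈ C := by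
  classical
  have hyp := h.hyp
  have hδ := h.δ_nonneg
  have ht1 := h.tl_ge 1
  have hc1 := h.tl_one_le_c1
  set c1 := Lox.c1 o f δ with hc1d
  set c5 := Lox.c5 o f δ with hc5d
  set r : ℕ := ⌊(2 * c1 + 2 * δ + tl o f 1) + 2 * δ⌋₊ with hr
  set F : Finset Γ := (W.fin r).toFinset with hF
  refine ⟨F.card * tl o f 1 + (c1 + δ) + c1 + 2 * c5 + 2, ?_⟩
  intro γ y c hc c' hc' hD
  set p := pt W (y * c) with hp
  set q := pt W (y * c') with hq
  set S : Set (Pt W) := {x | ∃ e ∈ E, x = (γ * e) • o} with hS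
  have hSne : S.Nonempty := ⟨(γ * 1) • o, 1, one_mem E, rfl⟩
  -- two points of the set
  obtain ⟨s1, hs1, s2, hs2, h3⟩ : ∃ s1 ∈ S, ∃ s2 ∈ S,
      F.card * tl o f 1 + (c1 + δ) + c1 + 2 * c5 + 1 <
        ((dist p s1 - dist p s2) - (dist q s1 - dist q s2)) / 2 := by
    by_contra hcon
    push Not at hcon
    have := pd_le hSne hcon
    linarith
  have hnear : ∀ s ∈ S, ∃ j : ℤ, dist s (γ • f ^ j • o) ≤ c5 := by
    rintro _ ⟨e, he, rfl⟩
    have he' : e ∈ Lox.E f := ⟨1, 1, one_ne_zero, one_ne_zero, by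
      rw [zpow_one, (hE e he).eq]; group⟩
    obtain ⟨j, hj⟩ := h.E_near he'
    refine ⟨j, ?_⟩
    rw [mul_smul, dist_smul]
    exact hj
  obtain ⟨j1, hj1⟩ := hnear s1 hs1
  obtain ⟨j2, hj2⟩ := hnear s2 hs2
  set L : Set (Pt W) := {x | γ⁻¹ • x ∈ Lox.line o f} with hL
  have hT : ∀ x, x ∈ L ↔ γ⁻¹ • x ∈ Lox.line o f := fun x => Iff.rfl
  have hline : ∀ j : ℤ, γ • f ^ j • o ∈ L := by
    intro j
    rw [hT, inv_smul_smul]
    exact ⟨j, rfl⟩
  have h4 := le_pd (p := p) (q := q) (hline j1) (hline j2)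
  have h5 : F.card * tl o f 1 + (c1 + δ) + c1 + 1 < pd L p q := by
    have a1 := dist_triangle p (γ • f ^ j1 • o) s1
    have a2 := dist_triangle p s2 (γ • f ^ j2 • o)
    have a3 := dist_triangle q s1 (γ • f ^ j1 • o)
    have a4 := dist_triangle q (γ • f ^ j2 • o) s2
    rw [dist_comm (γ • f ^ j1 • o) s1] at a1
    rw [dist_comm (γ • f ^ j2 • o) s2] at a4
    linarith
  have hQ : QLine c1 L := (h.qline).smul hT
  obtain ⟨p', hp'⟩ := hQ.proj p
  obtain ⟨q', hq'⟩ := hQ.proj q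
  have h6 := pd_le_of_proj hp' hq'
  have hF0 : (0 : ℝ) ≤ F.card := Nat.cast_nonneg _
  have h7 : 0 ≤ (F.card : ℝ) * tl o f 1 := by
    apply mul_nonneg hF0
    push_cast at ht1
    linarith
  have h8 := far_of_proj hyp hp' hq' (by linarith)
  obtain ⟨i, hi⟩ := hp'.1
  obtain ⟨j, hj⟩ := hq'.1
  simp only at hi hj
  have hi' : p' = γ • f ^ i • o := by rw [hi, smul_inv_smul]
  have hj' : q' = γ • f ^ j • o := by rw [hj, smul_inv_smul]
  have h9 : dist p' q' = tl o f (j - i).natAbs := by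
    rw [hi', hj', dist_smul, dist_zpow]
  have h10 := h.tl_nat_le (j - i).natAbs
  have h11 : F.card < (j - i).natAbs := by
    by_contra hcon
    push Not at hcon
    have h12 : ((j - i).natAbs : ℝ) ≤ F.card := by exact_mod_cast hcon
    have h13 : ((j - i).natAbs : ℝ) * tl o f 1 ≤ F.card * tl o f 1 := by
      apply mul_le_mul_of_nonneg_right h12
      push_cast at ht1
      linarith
    linarith
  have key : ∀ t : ℤ, t ∈ Finset.Icc (min i j) (max i j) → ∃ κ ∈ C,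
      (γ * (f ^ t * o.out))⁻¹ * (y * κ) ∈ F := by
    intro t ht
    rw [Finset.mem_Icc] at ht
    have h12 : exc p' q' (γ • f ^ t • o) ≤ tl o f 1 := by
      rw [hi', hj', exc_smul]
      unfold exc
      rcases le_total i j with hij | hij
      · rw [min_eq_left hij, max_eq_right hij] at ht
        have := h.chain ht.1 ht.2
        linarith
      · rw [min_eq_right hij, max_eq_left hij] at ht
        have := h.chain ht.1 ht.2
        rw [dist_comm (f ^ j • o) (f ^ t • o), dist_comm (f ^ t • o) (f ^ i • o),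
          dist_comm (f ^ j • o) (f ^ i • o)] at this
        linarith
    have h13 : exc p q (γ • f ^ t • o) ≤ 2 * c1 + 2 * δ + tl o f 1 := by
      have a1 := dist_triangle p p' (γ • f ^ t • o)
      have a2 := dist_triangle (γ • f ^ t • o) q' q
      rw [dist_comm q' q] at a2
      unfold exc at h12 ⊢
      linarith
    obtain ⟨κ, hκ, h14⟩ := hC.near hyp y hc hc' h13
    refine ⟨κ, hκ, ?_⟩
    rw [hF, Set.Finite.mem_toFinset]
    change W.ℓ _ ≤ r
    rw [hr]
    apply Nat.le_floor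
    exact h14
  choose! κ hκ hm using key
  obtain ⟨t, ht, s, hs, hts, he⟩ := Finset.exists_ne_map_eq_of_card_lt_of_maps_to
    (s := Finset.Icc (min i j) (max i j)) (t := F) (by rw [Int.card_Icc]; omega)
    (f := fun t => (γ * (f ^ t * o.out))⁻¹ * (y * κ t)) (fun t ht => hm t ht)
  refine ⟨t - s, sub_ne_zero.mpr hts, ?_⟩
  have he' : (γ * (f ^ t * o.out))⁻¹ * (y * κ t) = (γ * (f ^ s * o.out))⁻¹ * (y * κ s) := he
  have h15 : y * κ t = (γ * (f ^ t * o.out)) * ((γ * (f ^ s * o.out))⁻¹ * (y * κ s)) := by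
    rw [← he']; group
  have h16 : (y⁻¹ * γ) * f ^ (t - s) * (y⁻¹ * γ)⁻¹ = κ t * (κ s)⁻¹ := by
    have h17 : κ t = y⁻¹ * (y * κ t) := by group
    rw [h17, h15]; group
  rw [h16]
  exact mul_mem (hκ t ht) (inv_mem (hκ s hs))

end

end Pool.Agent.TH82.FG
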